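import Pool.Agent.H31.Para

set_option autoImplicit false

open Pool.Agent.H31 Topology Pointwise

theorem Pool.Agent.Results.MP_82b063_al.Q1.result :
    ∃ (G : Type) (_ : TopologicalSpace G) (_ : AddCommGroup G), ContinuousAdd G ∧ T2Space G ∧
      (∀ x : G, ∀ U ∈ 𝓝 (0 : G), ∃ n : ℕ, 1 ≤ n ∧ n • x ∈ U) ∧
      (∃ D : Set G, Dense D ∧ ∀ B ⊆ D, B.Infinite → ∃ y, ∀ V ∈ 𝓝 y, (V ∩ B).Infinite) ∧
      (∀ 𝒰 : Set (Set G), (∀ U ∈ 𝒰, IsOpen U ∧ U.Nonempty) →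
        LocallyFinite (fun U : 𝒰 => U.1) → 𝒰.Finite) ∧
      (∀ U ∈ 𝓝 (0 : G), ∃ F : Set G, F.Countable ∧ F + U = Set.univ) ∧
      ¬ Continuous fun x : G => -x := by
  obtain ⟨G, _, _, h1, h2, h3, ⟨D, h4, h5⟩, h6⟩ := Para.per
  exact ⟨G, _, _, h1, h2, h3, ⟨D, h4, h5⟩, Para.prac h4 h5, h6⟩
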